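import Pool.Agent.R970.FB.Main

set_option autoImplicit false

open MeasureTheory ProbabilityTheory
open Pool.Agent.R970.FB

namespace Pool.Agent.Results.MP_1541f7_pr.Disproof

/-- There is a process with continuous paths which is a forward Brownian motion and a backward
Brownian motion and admits an independence time, but is not a two-sided Brownian motion, not even
on any extension of the probability space. -/
theorem result :
    ∃ (Ω : Type) (_ : MeasurableSpace Ω) (P : Measure Ω) (X : ℝ → Ω → ℝ),
      IsProbabilityMeasure P ∧ (∀ t, Measurable (X t)) ∧ (∀ ω, Continuous (X · ω)) ∧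
      IsFBM X P ∧ IsBBM X P ∧ (∃ T : Ω → ℝ, Measurable T ∧ IndepAt X T P) ∧ ¬ Is2BM X P ∧
      ∀ (Ω' : Type) (_ : MeasurableSpace Ω') (P' : Measure Ω') (g : Ω' → Ω),
        MeasurePreserving g P' P → ¬ Is2BM (fun t ω => X t (g ω)) P' :=
  main

end Pool.Agent.Results.MP_1541f7_pr.Disproof
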